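import Mathlib

set_option autoImplicit false

namespace Pool.Agent.Results.MP_eb5881_co.InvolutionDescents

open Finset Polynomial

/-- `Ω_n = {±1, …, ±n}`. -/
abbrev Om (n : ℕ) : Type := ↥((Finset.Icc (-(n : ℤ)) n).erase 0)

open Classical in
/-- The set `I_n^B` of involutions of `B_n`: the bijections `w` of `Ω_n` with `w(-a) = -w(a)` and
`w(w(a)) = a` for all `a`. -/
noncomputable def IB (n : ℕ) : Finset (Equiv.Perm (Om n)) :=
  univ.filter fun w =>
    (∀ a b : Om n, (b : ℤ) = -(a : ℤ) → ((w b : Om n) : ℤ) = -((w a : Om n) : ℤ)) ∧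
    ∀ a : Om n, w (w a) = a

/-- The value `w(i)` as an integer, with `w(0) = 0`. -/
noncomputable def ev {n : ℕ} (w : Equiv.Perm (Om n)) (i : ℤ) : ℤ :=
  if h : i ∈ (Finset.Icc (-(n : ℤ)) n).erase 0 then ((w ⟨i, h⟩ : Om n) : ℤ) else 0

/-- The total order `-1 <_r -2 <_r -3 <_r ⋯ <_r 0 <_r 1 <_r 2 <_r ⋯` of `ℤ`. -/
def rlt (a b : ℤ) : Prop := (a < 0 ∧ b < 0 ∧ b < a) ∨ (a < 0 ∧ 0 ≤ b) ∨ (0 ≤ a ∧ a < b)

instance decRlt (a b : ℤ) : Decidable (rlt a b) := by unfold rlt; infer_instance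

/-- `des_B(w) = #{i ∈ {0, …, n-1} : w(i) >_r w(i+1)}`. -/
noncomputable def desLower {n : ℕ} (w : Equiv.Perm (Om n)) : ℕ :=
  ((range n).filter fun i : ℕ => rlt (ev w ((i : ℤ) + 1)) (ev w (i : ℤ))).card

/-- `des^B(w) = #{i ∈ {0, …, n-1} : w(i) > w(i+1)}`. -/
noncomputable def desUpper {n : ℕ} (w : Equiv.Perm (Om n)) : ℕ :=
  ((range n).filter fun i : ℕ => ev w ((i : ℤ) + 1) < ev w (i : ℤ)).card

/-! ### Reversing the classes of a colouring -/

section rev

variable {X : Type*} [Fintype X] [LinearOrder X] {C : Type*}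

lemma exists_rev (c : X → C) : ∃ ρ : X → X, (∀ x, c (ρ x) = c x) ∧
    ∀ x y, c x = c y → x < y → ρ y < ρ x := by
  classical
  let e : ∀ a, Fin (Fintype.card {x // c x = a}) ≃o {x // c x = a} :=
    fun a => Fintype.orderIsoFinOfCardEq _ rfl
  let R : X → X := fun x => ((e (c x)) (Fin.rev ((e (c x)).symm ⟨x, rfl⟩))).1
  refine ⟨R, fun x => ((e (c x)) _).2, ?_⟩
  intro x y hxy hlt
  have key : ∀ (a) (y) (hy : c y = a), R y = ((e a) (Fin.rev ((e a).symm ⟨y, hy⟩))).1 := by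
    rintro a y rfl; rfl
  rw [key (c x) x rfl, key (c x) y hxy.symm]
  have h1 : (e (c x)).symm ⟨x, rfl⟩ < (e (c x)).symm ⟨y, hxy.symm⟩ :=
    (e (c x)).symm.lt_iff_lt.mpr hlt
  exact (e (c x)).lt_iff_lt.mpr (Fin.rev_lt_rev.mpr h1)

lemma fib_id (c : X → C) (h : X → X) (h1 : ∀ x, c (h x) = c x)
    (h2 : ∀ x y, c x = c y → x < y → h x < h y) (x : X) : h x = x := by
  classical
  let g : {y // c y = c x} → {y // c y = c x} := fun y => ⟨h y, (h1 y).trans y.2⟩
  have hg : StrictMono g := fun a b hab => h2 a b (a.2.trans b.2.symm) hab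
  have h3 : (⟨x, rfl⟩ : {y // c y = c x}) ≤ g ⟨x, rfl⟩ := hg.le_apply
  have h4 : g ⟨x, rfl⟩ ≤ (⟨x, rfl⟩ : {y // c y = c x}) := hg.apply_le
  exact le_antisymm h4 h3

lemma rev_unique (c : X → C) (f g : X → X) (hf1 : ∀ x, c (f x) = c x)
    (hf2 : ∀ x y, c x = c y → x < y → f y < f x) (hg1 : ∀ x, c (g x) = c x)
    (hg2 : ∀ x y, c x = c y → x < y → g y < g x) (x : X) : f x = g x := by
  have h1 : ∀ x, f (g x) = x := fib_id c (fun x => f (g x)) (fun x => by rw [hf1, hg1])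
    (fun x y hxy hlt => hf2 _ _ (by rw [hg1, hg1, hxy]) (hg2 x y hxy hlt))
  have h2 : ∀ x, g (g x) = x := fib_id c (fun x => g (g x)) (fun x => by rw [hg1, hg1])
    (fun x y hxy hlt => hg2 _ _ (by rw [hg1, hg1, hxy]) (hg2 x y hxy hlt))
  have h3 := h1 (g x)
  rwa [h2] at h3

/-- The map that reverses every class of the colouring `c`. -/
noncomputable def rv (c : X → C) : X → X := Classical.choose (exists_rev c)

lemma rv_color (c : X → C) (x : X) : c (rv c x) = c x := (Classical.choose_spec (exists_rev c)).1 x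

lemma rv_lt (c : X → C) (x y : X) (h : c x = c y) (hlt : x < y) : rv c y < rv c x :=
  (Classical.choose_spec (exists_rev c)).2 x y h hlt

lemma rv_rv (c : X → C) (x : X) : rv c (rv c x) = x :=
  fib_id c (fun x => rv c (rv c x)) (fun x => by rw [rv_color c, rv_color c])
    (fun x y hxy hlt => rv_lt c _ _ (by rw [rv_color c, rv_color c, hxy]) (rv_lt c x y hxy hlt)) x

variable {B : Type*} (b : X → B)

/-- The pair of blocks of `x` and `σ x`. -/
def AA (σ : X → X) (x : X) : B × B := (b x, b (σ x))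

/-- Reverse the classes of `AA b σ`, then apply `σ`. -/
noncomputable def TT (σ : X → X) (x : X) : X := σ (rv (AA b σ) x)

/-- Conjugate with the reversal of all blocks. -/
noncomputable def CC (σ : X → X) (x : X) : X := rv b (σ (rv b x))

lemma CC_CC (σ : X → X) (x : X) : CC b (CC b σ) x = σ x := by
  unfold CC; rw [rv_rv, rv_rv]

lemma b_TT (σ : X → X) (x : X) : b (TT b σ x) = b (σ x) := by
  have h := rv_color (AA b σ) x
  exact congrArg Prod.snd h

lemma b_rvAA (σ : X → X) (x : X) : b (rv (AA b σ) x) = b x := by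
  have h := rv_color (AA b σ) x
  exact congrArg Prod.fst h

lemma AA_TT (σ : X → X) : AA b (TT b σ) = AA b σ := by
  funext x
  exact Prod.ext rfl (b_TT b σ x)

lemma TT_TT (σ : X → X) (x : X) : TT b (TT b σ) x = σ x := by
  show TT b σ (rv (AA b (TT b σ)) x) = σ x
  rw [AA_TT]
  show σ (rv (AA b σ) (rv (AA b σ) x)) = σ x
  rw [rv_rv]

lemma CC_inv (σ : X → X) (h : ∀ x, σ (σ x) = x) (x : X) : CC b σ (CC b σ x) = x := by
  unfold CC; rw [rv_rv, h, rv_rv]

/-- increasing on the classes of `AA b σ` -/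
def QP (σ : X → X) : Prop := ∀ x y, b x = b y → b (σ x) = b (σ y) → x < y → σ x < σ y

/-- decreasing on the classes of `AA b σ` -/
def QM (σ : X → X) : Prop := ∀ x y, b x = b y → b (σ x) = b (σ y) → x < y → σ y < σ x

lemma AA_swap (σ : X → X) (h : ∀ x, σ (σ x) = x) (x y : X) (hxy : AA b σ x = AA b σ y) :
    AA b σ (σ x) = AA b σ (σ y) := by
  have h1 : b x = b y := congrArg Prod.fst hxy
  have h2 : b (σ x) = b (σ y) := congrArg Prod.snd hxy
  unfold AA
  rw [h, h, h1, h2]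

lemma TT_inv (σ : X → X) (h : ∀ x, σ (σ x) = x) (hQ : QP b σ ∨ QM b σ) (x : X) :
    TT b σ (TT b σ x) = x := by
  have hcomm : ∀ x, σ (rv (AA b σ) (σ x)) = rv (AA b σ) x := by
    apply rev_unique (AA b σ) (fun x => σ (rv (AA b σ) (σ x))) (rv (AA b σ))
    · intro x
      have h1 := AA_swap b σ h _ _ (rv_color (AA b σ) (σ x))
      rw [h1, h]
    · intro x y hxy hlt
      have h1 := AA_swap b σ h x y hxy
      have e1 : b (σ x) = b (σ y) := congrArg Prod.snd hxy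
      have e0 : b x = b y := congrArg Prod.fst hxy
      have cx := rv_color (AA b σ) (σ x)
      have cy := rv_color (AA b σ) (σ y)
      have hc : AA b σ (rv (AA b σ) (σ x)) = AA b σ (rv (AA b σ) (σ y)) := by rw [cx, cy, h1]
      have f1 := congrArg Prod.fst hc
      have f2 := congrArg Prod.snd hc
      rcases hQ with hQ | hQ
      · have h2 := hQ x y e0 e1 hlt
        have h3 := rv_lt (AA b σ) _ _ h1 h2
        exact hQ _ _ f1.symm f2.symm h3
      · have h2 := hQ x y e0 e1 hlt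
        have h3 := rv_lt (AA b σ) _ _ h1.symm h2
        exact hQ _ _ f1 f2 h3
    · exact rv_color _
    · exact rv_lt _
  unfold TT
  have h1 := hcomm (rv (AA b σ) x)
  rw [rv_rv] at h1
  exact h1

lemma QP_CC (σ : X → X) (hQ : QP b σ) : QP b (CC b σ) := by
  intro x y hxy hs hlt
  unfold CC at hs ⊢
  rw [rv_color b, rv_color b] at hs
  have h1 := rv_lt b x y hxy hlt
  have h2 := hQ _ _ (by rw [rv_color b, rv_color b, hxy]) hs.symm h1
  exact rv_lt b _ _ hs.symm h2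

lemma QM_CC (σ : X → X) (hQ : QM b σ) : QM b (CC b σ) := by
  intro x y hxy hs hlt
  unfold CC at hs ⊢
  rw [rv_color b, rv_color b] at hs
  have h1 := rv_lt b x y hxy hlt
  have h2 := hQ _ _ (by rw [rv_color b, rv_color b, hxy]) hs.symm h1
  exact rv_lt b _ _ hs h2

lemma QM_TT (σ : X → X) (hQ : QP b σ) : QM b (TT b σ) := by
  intro x y hxy hs hlt
  rw [b_TT b, b_TT b] at hs
  have hA : AA b σ x = AA b σ y := Prod.ext hxy hs
  have h1 := rv_lt (AA b σ) x y hA hlt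
  have hc : AA b σ (rv (AA b σ) y) = AA b σ (rv (AA b σ) x) := by
    rw [rv_color (AA b σ), rv_color (AA b σ), hA]
  exact hQ _ _ (congrArg Prod.fst hc) (congrArg Prod.snd hc) h1

lemma QP_TT (σ : X → X) (hQ : QM b σ) : QP b (TT b σ) := by
  intro x y hxy hs hlt
  rw [b_TT b, b_TT b] at hs
  have hA : AA b σ x = AA b σ y := Prod.ext hxy hs
  have h1 := rv_lt (AA b σ) x y hA hlt
  have hc : AA b σ (rv (AA b σ) y) = AA b σ (rv (AA b σ) x) := by
    rw [rv_color (AA b σ), rv_color (AA b σ), hA]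
  exact hQ _ _ (congrArg Prod.fst hc) (congrArg Prod.snd hc) h1

end rev

section mono

variable {X : Type*} [Fintype X] [LinearOrder X] (b : X → ℕ) (hb : Monotone b)

/-- increasing on blocks -/
def Inc (σ : X → X) : Prop := ∀ x y, b x = b y → x < y → σ x < σ y

/-- decreasing on blocks -/
def Dec (σ : X → X) : Prop := ∀ x y, b x = b y → x < y → σ y < σ x

/-- The bijection from `Inc` to `Dec`. -/
noncomputable def FF (σ : X → X) : X → X := TT b (CC b σ)

/-- The bijection from `Dec` to `Inc`. -/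
noncomputable def GG (σ : X → X) : X → X := CC b (TT b σ)

lemma CC_CC' (σ : X → X) : CC b (CC b σ) = σ := funext (CC_CC b σ)

lemma TT_TT' (σ : X → X) : TT b (TT b σ) = σ := funext (TT_TT b σ)

lemma GG_FF (σ : X → X) : GG b (FF b σ) = σ := by
  unfold GG FF; rw [TT_TT', CC_CC']

lemma FF_GG (σ : X → X) : FF b (GG b σ) = σ := by
  unfold GG FF; rw [CC_CC', TT_TT']

include hb in
lemma lt_of_b_lt {x y : X} (h : b x < b y) : x < y := by
  by_contra hc
  have := hb (not_lt.mp hc)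
  omega

include hb in
lemma FF_dec (σ : X → X) (hinv : ∀ x, σ (σ x) = x) (h : Inc b σ) :
    Dec b (FF b σ) ∧ ∀ x, FF b σ (FF b σ x) = x := by
  have hQ : QP b σ := fun x y h1 _ h3 => h x y h1 h3
  have hQC := QP_CC b σ hQ
  have hQT := QM_TT b _ hQC
  refine ⟨?_, TT_inv b _ (CC_inv b σ hinv) (Or.inl hQC)⟩
  intro x y hxy hlt
  rcases eq_or_ne (b (FF b σ x)) (b (FF b σ y)) with he | hne
  · exact hQT x y hxy he hlt
  · apply lt_of_b_lt b hb
    refine lt_of_le_of_ne ?_ hne.symm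
    unfold FF
    rw [b_TT b, b_TT b]
    unfold CC
    rw [rv_color b, rv_color b]
    exact hb (h _ _ (by rw [rv_color b, rv_color b, hxy]) (rv_lt b x y hxy hlt)).le

include hb in
lemma GG_inc (σ : X → X) (hinv : ∀ x, σ (σ x) = x) (h : Dec b σ) :
    Inc b (GG b σ) ∧ ∀ x, GG b σ (GG b σ x) = x := by
  have hQ : QM b σ := fun x y h1 _ h3 => h x y h1 h3
  have hQT := QP_TT b σ hQ
  have hQC := QP_CC b _ hQT
  refine ⟨?_, CC_inv b _ (TT_inv b σ hinv (Or.inr hQ))⟩
  intro x y hxy hlt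
  rcases eq_or_ne (b (GG b σ x)) (b (GG b σ y)) with he | hne
  · exact hQC x y hxy he hlt
  · apply lt_of_b_lt b hb
    refine lt_of_le_of_ne ?_ hne
    unfold GG CC
    rw [rv_color b, rv_color b, b_TT b, b_TT b]
    exact hb (h _ _ (by rw [rv_color b, rv_color b, hxy]) (rv_lt b x y hxy hlt)).le

lemma rv_fix {C : Type*} (c : X → C) (x : X) (hx : ∀ y, c y = c x → y = x) : rv c x = x :=
  hx _ (rv_color c x)

lemma FF_fix (σ : X → X) (hinv : ∀ x, σ (σ x) = x) (N : Finset X) (hN : ∀ x ∈ N, σ x ∈ N)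
    (hs : ∀ x, x ∉ N → ∀ y, b y = b x → y = x) (x : X) (hx : x ∉ N) : FF b σ x = σ x := by
  have hsx : σ x ∉ N := fun h => hx (by have := hN _ h; rwa [hinv] at this)
  have h1 : CC b σ x = σ x := by
    unfold CC
    rw [rv_fix b x (hs x hx), rv_fix b (σ x) (hs _ hsx)]
  have h2 : rv (AA b (CC b σ)) x = x := hs x hx _ (b_rvAA b _ x)
  unfold FF TT
  rw [h2, h1]

lemma GG_fix (σ : X → X) (hinv : ∀ x, σ (σ x) = x) (N : Finset X) (hN : ∀ x ∈ N, σ x ∈ N)
    (hs : ∀ x, x ∉ N → ∀ y, b y = b x → y = x) (x : X) (hx : x ∉ N) : GG b σ x = σ x := by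
  have hsx : σ x ∉ N := fun h => hx (by have := hN _ h; rwa [hinv] at this)
  have h2 : rv (AA b σ) x = x := hs x hx _ (b_rvAA b _ x)
  unfold GG CC TT
  rw [rv_fix b x (hs x hx), h2, rv_fix b (σ x) (hs _ hsx)]

lemma stable_of_eq_off (σ τ : X → X) (hσ : ∀ x, σ (σ x) = x) (hτ : ∀ x, τ (τ x) = x)
    (N : Finset X) (hN : ∀ x ∈ N, σ x ∈ N) (h : ∀ x, x ∉ N → τ x = σ x) :
    ∀ x ∈ N, τ x ∈ N := by
  intro x hx
  by_contra hc
  have h1 := h _ hc
  rw [hτ] at h1
  have h2 : σ x = τ x := by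
    have h3 := hσ (τ x)
    rwa [← h1] at h3
  rw [← h2] at hc
  exact hc (hN x hx)

end mono

/-! ### Signed involutions as pairs -/

section pairs

/-- `{1, …, n}` -/
abbrev Xn (n : ℕ) : Type := ↥(Finset.Icc 1 n)

/-- the value sequence of a pair (involution, set of negative positions) -/
noncomputable def vl {n : ℕ} (p : (Xn n → Xn n) × Finset (Xn n)) (i : ℕ) : ℤ :=
  if h : i ∈ Finset.Icc 1 n then
    (if (⟨i, h⟩ : Xn n) ∈ p.2 then -(((p.1 ⟨i, h⟩ : Xn n) : ℕ) : ℤ) else (((p.1 ⟨i, h⟩ : Xn n) : ℕ) : ℤ))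
  else 0

open Classical in
/-- pairs (involution, stable set) -/
noncomputable def J (n : ℕ) : Finset ((Xn n → Xn n) × Finset (Xn n)) :=
  univ.filter fun p => (∀ x, p.1 (p.1 x) = x) ∧ ∀ x ∈ p.2, p.1 x ∈ p.2

def UA (n : ℕ) (v : ℕ → ℤ) : Finset ℕ :=
  (range n).filter fun i => v i < 0 ∧ v (i + 1) < 0 ∧ v (i + 1) < v i

def UD (n : ℕ) (v : ℕ → ℤ) : Finset ℕ :=
  (range n).filter fun i => v i < 0 ∧ v (i + 1) < 0 ∧ v i < v (i + 1)

def EE (n : ℕ) (v : ℕ → ℤ) : Finset ℕ :=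
  (range n).filter fun i => ¬ (v i < 0 ∧ v (i + 1) < 0) ∧ v (i + 1) < v i

def bS {n : ℕ} (S : Finset ℕ) (x : Xn n) : ℕ := ((range (x : ℕ)).filter (fun i => i ∉ S)).card

lemma bS_mono {n : ℕ} (S : Finset ℕ) : Monotone (bS (n := n) S) := by
  intro x y hxy
  unfold bS
  apply card_le_card
  apply filter_subset_filter
  intro i hi
  rw [mem_range] at hi ⊢
  exact lt_of_lt_of_le hi hxy

lemma bS_mem {n : ℕ} (S : Finset ℕ) (x y : Xn n) (h : bS S x = bS S y) (i : ℕ)
    (h1 : (x : ℕ) ≤ i) (h2 : i < (y : ℕ)) : i ∈ S := by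
  by_contra hc
  have : bS S x < bS S y := by
    unfold bS
    apply card_lt_card
    rw [Finset.ssubset_iff_of_subset]
    · exact ⟨i, by rw [mem_filter, mem_range]; exact ⟨h2, hc⟩, by
        rw [mem_filter, mem_range]; intro h; omega⟩
    · apply filter_subset_filter
      intro j hj
      rw [mem_range] at hj ⊢
      omega
  omega

lemma bS_succ {n : ℕ} (S : Finset ℕ) (i : ℕ) (hi : i ∈ S) (h1 : i ∈ Finset.Icc 1 n)
    (h2 : i + 1 ∈ Finset.Icc 1 n) : bS S (⟨i, h1⟩ : Xn n) = bS S ⟨i + 1, h2⟩ := by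
  unfold bS
  show ((range i).filter (fun i => i ∉ S)).card = ((range (i + 1)).filter (fun i => i ∉ S)).card
  rw [Finset.range_add_one, filter_insert, if_neg (by simpa using hi)]

lemma chainA (v : ℕ → ℤ) (x y : ℕ) (hxy : x < y)
    (h : ∀ i, x ≤ i → i < y → v i < 0 ∧ v (i + 1) < 0 ∧ v (i + 1) < v i) :
    v x < 0 ∧ v y < 0 ∧ v y < v x := by
  induction y, hxy using Nat.le_induction with
  | base => exact h x le_rfl (by omega)
  | succ y hy ih =>
    have h1 := ih (fun i h1 h2 => h i h1 (by omega))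
    have h2 := h y (by omega) (by omega)
    omega

lemma chainD (v : ℕ → ℤ) (x y : ℕ) (hxy : x < y)
    (h : ∀ i, x ≤ i → i < y → v i < 0 ∧ v (i + 1) < 0 ∧ v i < v (i + 1)) :
    v x < 0 ∧ v y < 0 ∧ v x < v y := by
  induction y, hxy using Nat.le_induction with
  | base => exact h x le_rfl (by omega)
  | succ y hy ih =>
    have h1 := ih (fun i h1 h2 => h i h1 (by omega))
    have h2 := h y (by omega) (by omega)
    omega

lemma vl_eq {n : ℕ} (p : (Xn n → Xn n) × Finset (Xn n)) (x : Xn n) :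
    vl p (x : ℕ) = if x ∈ p.2 then -(((p.1 x : Xn n) : ℕ) : ℤ) else (((p.1 x : Xn n) : ℕ) : ℤ) := by
  unfold vl
  rw [dif_pos x.2]

lemma pos_Xn {n : ℕ} (x : Xn n) : 0 < (x : ℕ) := by
  have := Finset.mem_Icc.mp x.2
  omega

lemma vl_neg {n : ℕ} (p : (Xn n → Xn n) × Finset (Xn n)) (x : Xn n) :
    vl p (x : ℕ) < 0 ↔ x ∈ p.2 := by
  rw [vl_eq]
  have := pos_Xn (p.1 x)
  split_ifs with h
  · simp only [h, iff_true]; omega
  · simp only [h, iff_false]; omega

lemma vl_out {n : ℕ} (p : (Xn n → Xn n) × Finset (Xn n)) (i : ℕ) (hi : i ∉ Finset.Icc 1 n) :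
    vl p i = 0 := by
  unfold vl; rw [dif_neg hi]

lemma EE_congr (n : ℕ) (v v' : ℕ → ℤ) (h1 : ∀ i, v' i < 0 ↔ v i < 0)
    (h2 : ∀ i, 0 ≤ v i → v' i = v i) : EE n v' = EE n v := by
  unfold EE
  apply filter_congr
  intro i _
  have a1 := h1 i
  have a2 := h1 (i + 1)
  have b1 := h2 i
  have b2 := h2 (i + 1)
  omega

lemma vl_change {n : ℕ} (p : (Xn n → Xn n) × Finset (Xn n)) (f : Xn n → Xn n)
    (hf : ∀ x, x ∉ p.2 → f x = p.1 x) :
    (∀ i, vl (f, p.2) i < 0 ↔ vl p i < 0) ∧ (∀ i, 0 ≤ vl p i → vl (f, p.2) i = vl p i) := by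
  constructor
  · intro i
    by_cases hi : i ∈ Finset.Icc 1 n
    · have h1 := vl_neg (f, p.2) ⟨i, hi⟩
      have h2 := vl_neg p ⟨i, hi⟩
      exact h1.trans h2.symm
    · rw [vl_out _ _ hi, vl_out _ _ hi]
  · intro i h0
    by_cases hi : i ∈ Finset.Icc 1 n
    · have h2 := vl_neg p ⟨i, hi⟩
      have h3 : (⟨i, hi⟩ : Xn n) ∉ p.2 := by
        intro hc
        have := h2.mpr hc
        simp only at this
        omega
      have h4 := vl_eq p ⟨i, hi⟩
      have h5 := vl_eq (f, p.2) ⟨i, hi⟩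
      simp only at h4 h5
      rw [h4, h5, if_neg h3, if_neg h3, hf _ h3]
    · rw [vl_out _ _ hi, vl_out _ _ hi]

lemma UA_facts {n : ℕ} (p : (Xn n → Xn n) × Finset (Xn n)) (S : Finset ℕ) (hS : S ⊆ UA n (vl p)) :
    Inc (bS S) p.1 ∧ ∀ x, x ∉ p.2 → ∀ y, bS S y = bS S x → y = x := by
  have key : ∀ x y : Xn n, bS S x = bS S y → x < y →
      vl p x < 0 ∧ vl p y < 0 ∧ vl p y < vl p x := by
    intro x y hb hlt
    refine chainA (vl p) x y hlt fun i h1 h2 => ?_
    have := hS (bS_mem S x y hb i h1 h2)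
    unfold UA at this
    exact (mem_filter.mp this).2
  constructor
  · intro x y hb hlt
    obtain ⟨h1, h2, h3⟩ := key x y hb hlt
    have m1 := (vl_neg p x).mp h1
    have m2 := (vl_neg p y).mp h2
    rw [vl_eq p x, vl_eq p y, if_pos m1, if_pos m2] at h3
    have h4 : ((p.1 x : Xn n) : ℕ) < ((p.1 y : Xn n) : ℕ) := by omega
    exact h4
  · intro x hx y hb
    by_contra hne
    rcases lt_or_gt_of_ne hne with h | h
    · exact hx ((vl_neg p x).mp (key y x hb h).2.1)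
    · exact hx ((vl_neg p x).mp (key x y hb.symm h).1)

lemma UD_facts {n : ℕ} (p : (Xn n → Xn n) × Finset (Xn n)) (S : Finset ℕ) (hS : S ⊆ UD n (vl p)) :
    Dec (bS S) p.1 ∧ ∀ x, x ∉ p.2 → ∀ y, bS S y = bS S x → y = x := by
  have key : ∀ x y : Xn n, bS S x = bS S y → x < y →
      vl p x < 0 ∧ vl p y < 0 ∧ vl p x < vl p y := by
    intro x y hb hlt
    refine chainD (vl p) x y hlt fun i h1 h2 => ?_
    have := hS (bS_mem S x y hb i h1 h2)
    unfold UD at this
    exact (mem_filter.mp this).2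
  constructor
  · intro x y hb hlt
    obtain ⟨h1, h2, h3⟩ := key x y hb hlt
    have m1 := (vl_neg p x).mp h1
    have m2 := (vl_neg p y).mp h2
    rw [vl_eq p x, vl_eq p y, if_pos m1, if_pos m2] at h3
    have h4 : ((p.1 y : Xn n) : ℕ) < ((p.1 x : Xn n) : ℕ) := by omega
    exact h4
  · intro x hx y hb
    by_contra hne
    rcases lt_or_gt_of_ne hne with h | h
    · exact hx ((vl_neg p x).mp (key y x hb h).2.1)
    · exact hx ((vl_neg p x).mp (key x y hb.symm h).1)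

/-- positions in `S` are adjacent pairs of negative positions -/
lemma neg_pair {n : ℕ} (p : (Xn n → Xn n) × Finset (Xn n)) (i : ℕ) (hi : i < n)
    (h1 : vl p i < 0) (h2 : vl p (i + 1) < 0) :
    ∃ (a : i ∈ Finset.Icc 1 n) (b : i + 1 ∈ Finset.Icc 1 n),
      (⟨i, a⟩ : Xn n) ∈ p.2 ∧ (⟨i + 1, b⟩ : Xn n) ∈ p.2 := by
  have a : i ∈ Finset.Icc 1 n := by
    by_contra hc; rw [vl_out p i hc] at h1; omega
  have b : i + 1 ∈ Finset.Icc 1 n := by
    rw [Finset.mem_Icc]; omega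
  exact ⟨a, b, (vl_neg p ⟨i, a⟩).mp h1, (vl_neg p ⟨i + 1, b⟩).mp h2⟩

lemma step_UA {n : ℕ} (p : (Xn n → Xn n) × Finset (Xn n)) (hp : p ∈ J n) (S : Finset ℕ)
    (hS : S ⊆ UA n (vl p)) :
    (FF (bS S) p.1, p.2) ∈ J n ∧ S ⊆ UD n (vl (FF (bS S) p.1, p.2)) ∧
      EE n (vl (FF (bS S) p.1, p.2)) = EE n (vl p) := by
  unfold J at hp ⊢
  rw [mem_filter] at hp ⊢
  obtain ⟨-, hinv, hst⟩ := hp
  obtain ⟨hInc, hsing⟩ := UA_facts p S hS
  obtain ⟨hDec, hinv'⟩ := FF_dec (bS S) (bS_mono S) p.1 hinv hInc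
  have hfix := FF_fix (bS S) p.1 hinv p.2 hst hsing
  have hst' := stable_of_eq_off p.1 _ hinv hinv' p.2 hst hfix
  obtain ⟨c1, c2⟩ := vl_change p _ hfix
  refine ⟨⟨mem_univ _, hinv', hst'⟩, ?_, EE_congr n _ _ c1 c2⟩
  intro i hiS
  have hi := hS hiS
  unfold UA at hi
  unfold UD
  rw [mem_filter] at hi ⊢
  obtain ⟨hin, h1, h2, h3⟩ := hi
  obtain ⟨a, b, ma, mb⟩ := neg_pair p i (mem_range.mp hin) h1 h2
  refine ⟨hin, (c1 i).mpr h1, (c1 (i + 1)).mpr h2, ?_⟩
  have e1 := vl_eq (FF (bS S) p.1, p.2) ⟨i, a⟩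
  have e2 := vl_eq (FF (bS S) p.1, p.2) ⟨i + 1, b⟩
  simp only at e1 e2
  rw [e1, e2, if_pos ma, if_pos mb]
  have h4 := hDec ⟨i, a⟩ ⟨i + 1, b⟩ (bS_succ S i hiS a b) (by
    show i < i + 1
    omega)
  have h5 : ((FF (bS S) p.1 ⟨i + 1, b⟩ : Xn n) : ℕ) < ((FF (bS S) p.1 ⟨i, a⟩ : Xn n) : ℕ) := h4
  omega

lemma step_UD {n : ℕ} (p : (Xn n → Xn n) × Finset (Xn n)) (hp : p ∈ J n) (S : Finset ℕ)
    (hS : S ⊆ UD n (vl p)) :
    (GG (bS S) p.1, p.2) ∈ J n ∧ S ⊆ UA n (vl (GG (bS S) p.1, p.2)) ∧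
      EE n (vl (GG (bS S) p.1, p.2)) = EE n (vl p) := by
  unfold J at hp ⊢
  rw [mem_filter] at hp ⊢
  obtain ⟨-, hinv, hst⟩ := hp
  obtain ⟨hDec, hsing⟩ := UD_facts p S hS
  obtain ⟨hInc, hinv'⟩ := GG_inc (bS S) (bS_mono S) p.1 hinv hDec
  have hfix := GG_fix (bS S) p.1 hinv p.2 hst hsing
  have hst' := stable_of_eq_off p.1 _ hinv hinv' p.2 hst hfix
  obtain ⟨c1, c2⟩ := vl_change p _ hfix
  refine ⟨⟨mem_univ _, hinv', hst'⟩, ?_, EE_congr n _ _ c1 c2⟩
  intro i hiS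
  have hi := hS hiS
  unfold UD at hi
  unfold UA
  rw [mem_filter] at hi ⊢
  obtain ⟨hin, h1, h2, h3⟩ := hi
  obtain ⟨a, b, ma, mb⟩ := neg_pair p i (mem_range.mp hin) h1 h2
  refine ⟨hin, (c1 i).mpr h1, (c1 (i + 1)).mpr h2, ?_⟩
  have e1 := vl_eq (GG (bS S) p.1, p.2) ⟨i, a⟩
  have e2 := vl_eq (GG (bS S) p.1, p.2) ⟨i + 1, b⟩
  simp only at e1 e2
  rw [e1, e2, if_pos ma, if_pos mb]
  have h4 := hInc ⟨i, a⟩ ⟨i + 1, b⟩ (bS_succ S i hiS a b) (by
    show i < i + 1
    omega)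
  have h5 : ((GG (bS S) p.1 ⟨i, a⟩ : Xn n) : ℕ) < ((GG (bS S) p.1 ⟨i + 1, b⟩ : Xn n) : ℕ) := h4
  omega

lemma sum_S (n : ℕ) (S : Finset ℕ) :
    ∑ p ∈ (J n).filter (fun p => S ⊆ UA n (vl p)), (X : ℤ[X]) ^ (EE n (vl p)).card =
    ∑ p ∈ (J n).filter (fun p => S ⊆ UD n (vl p)), (X : ℤ[X]) ^ (EE n (vl p)).card := by
  refine Finset.sum_bij' (fun p _ => (FF (bS S) p.1, p.2)) (fun p _ => (GG (bS S) p.1, p.2))
    ?_ ?_ ?_ ?_ ?_
  · intro p hp
    rw [mem_filter] at hp ⊢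
    obtain ⟨h1, h2, h3⟩ := step_UA p hp.1 S hp.2
    exact ⟨h1, h2⟩
  · intro p hp
    rw [mem_filter] at hp ⊢
    obtain ⟨h1, h2, h3⟩ := step_UD p hp.1 S hp.2
    exact ⟨h1, h2⟩
  · intro p hp
    simp only [GG_FF]
  · intro p hp
    simp only [FF_GG]
  · intro p hp
    rw [mem_filter] at hp
    obtain ⟨h1, h2, h3⟩ := step_UA p hp.1 S hp.2
    simp only [h3]

lemma expand (n : ℕ) (U : ((Xn n → Xn n) × Finset (Xn n)) → Finset ℕ) (hU : ∀ p, U p ⊆ range n) :
    ∑ p ∈ J n, (X : ℤ[X]) ^ ((EE n (vl p)).card + (U p).card) =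
    ∑ S ∈ (range n).powerset, (X - 1) ^ S.card *
      ∑ p ∈ (J n).filter (fun p => S ⊆ U p), (X : ℤ[X]) ^ (EE n (vl p)).card := by
  have h1 : ∀ p ∈ J n, (X : ℤ[X]) ^ ((EE n (vl p)).card + (U p).card) =
      ∑ S ∈ (range n).powerset, if S ⊆ U p then
        (X - 1) ^ S.card * (X : ℤ[X]) ^ (EE n (vl p)).card else 0 := by
    intro p _
    have h2 := Finset.sum_pow_mul_eq_add_pow ((X : ℤ[X]) - 1) 1 (U p)
    simp only [one_pow, mul_one, sub_add_cancel] at h2
    rw [pow_add, ← h2, Finset.mul_sum, ← Finset.sum_filter]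
    have h3 : (range n).powerset.filter (fun S => S ⊆ U p) = (U p).powerset := by
      ext S
      rw [mem_filter, mem_powerset, mem_powerset]
      exact ⟨fun h => h.2, fun h => ⟨h.trans (hU p), h⟩⟩
    rw [h3]
    refine Finset.sum_congr rfl fun S _ => by ring
  rw [Finset.sum_congr rfl h1, Finset.sum_comm]
  refine Finset.sum_congr rfl fun S _ => ?_
  rw [Finset.mul_sum, Finset.sum_filter]

lemma sum_J (n : ℕ) :
    ∑ p ∈ J n, (X : ℤ[X]) ^ ((EE n (vl p)).card + (UA n (vl p)).card) =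
    ∑ p ∈ J n, (X : ℤ[X]) ^ ((EE n (vl p)).card + (UD n (vl p)).card) := by
  rw [expand n (fun p => UA n (vl p)) (fun p => filter_subset _ _),
    expand n (fun p => UD n (vl p)) (fun p => filter_subset _ _)]
  refine Finset.sum_congr rfl fun S _ => ?_
  rw [sum_S]

end pairs

/-! ### The dictionary between signed involutions and pairs -/

section bridge

variable {n : ℕ}

lemma Om_iff (z : ℤ) : z ∈ (Finset.Icc (-(n : ℤ)) n).erase 0 ↔ z ≠ 0 ∧ -(n : ℤ) ≤ z ∧ z ≤ n := by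
  rw [Finset.mem_erase, Finset.mem_Icc]

/-- absolute value -/
def mag (a : Om n) : Xn n := ⟨(a : ℤ).natAbs, by
  have := (Om_iff (n := n) (a : ℤ)).mp a.2
  rw [Finset.mem_Icc]; omega⟩

/-- the signed element `±x` -/
def sg (s : Bool) (x : Xn n) : Om n := ⟨if s then -((x : ℕ) : ℤ) else ((x : ℕ) : ℤ), by
  have := Finset.mem_Icc.mp x.2
  rw [Om_iff]; split_ifs <;> omega⟩

lemma mag_sg (s : Bool) (x : Xn n) : mag (sg s x) = x := by
  apply Subtype.ext
  unfold mag sg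
  cases s <;> simp

lemma sg_neg (s : Bool) (x : Xn n) : ((sg s x : Om n) : ℤ) < 0 ↔ s = true := by
  have := pos_Xn x
  unfold sg
  cases s <;> simp <;> omega

lemma sg_mag (a : Om n) : sg (decide ((a : ℤ) < 0)) (mag a) = a := by
  apply Subtype.ext
  have := (Om_iff (n := n) (a : ℤ)).mp a.2
  unfold mag sg
  by_cases h : (a : ℤ) < 0
  · simp only [h, decide_true, if_true]; omega
  · simp only [h, decide_false]
    have : ¬ ((a : ℤ) < 0) := h
    simp; omega

open Classical in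
/-- from a pair to a signed map -/
noncomputable def bw (p : (Xn n → Xn n) × Finset (Xn n)) (a : Om n) : Om n :=
  sg (xor (decide ((a : ℤ) < 0)) (decide (mag a ∈ p.2))) (p.1 (mag a))

lemma bw_bw (p : (Xn n → Xn n) × Finset (Xn n)) (h1 : ∀ x, p.1 (p.1 x) = x)
    (h2 : ∀ x ∈ p.2, p.1 x ∈ p.2) (a : Om n) : bw p (bw p a) = a := by
  have h3 : ∀ x, p.1 x ∈ p.2 ↔ x ∈ p.2 := fun x =>
    ⟨fun h => by have := h2 _ h; rwa [h1] at this, h2 x⟩
  have hm : mag (bw p a) = p.1 (mag a) := mag_sg _ _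
  have hs : decide (((bw p a : Om n) : ℤ) < 0) =
      (xor (decide ((a : ℤ) < 0)) (decide (mag a ∈ p.2))) := by
    have h5 := sg_neg (xor (decide ((a : ℤ) < 0)) (decide (mag a ∈ p.2))) (p.1 (mag a))
    rw [Bool.eq_iff_iff, decide_eq_true_eq]
    exact h5
  conv_rhs => rw [← sg_mag a]
  rw [bw, hm, hs, h1]
  congr 1
  simp only [h3]
  cases decide ((a : ℤ) < 0) <;> cases decide (mag a ∈ p.2) <;> rfl

lemma bw_neg (p : (Xn n → Xn n) × Finset (Xn n)) (a b : Om n) (h : (b : ℤ) = -(a : ℤ)) :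
    ((bw p b : Om n) : ℤ) = -((bw p a : Om n) : ℤ) := by
  have hm : mag b = mag a := by
    apply Subtype.ext
    unfold mag
    simp only [h, Int.natAbs_neg]
  have ha := (Om_iff (n := n) (a : ℤ)).mp a.2
  have hd : decide ((b : ℤ) < 0) = ! decide ((a : ℤ) < 0) := by
    by_cases h0 : (a : ℤ) < 0
    · have h4 : ¬ (b : ℤ) < 0 := by omega
      simp [h0, h4]
    · have h4 : (b : ℤ) < 0 := by omega
      simp [h0, h4]
  unfold bw
  rw [hm, hd]
  unfold sg
  cases decide ((a : ℤ) < 0) <;> cases decide (mag a ∈ p.2) <;> simp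

open Classical in
/-- from a pair to a signed permutation -/
noncomputable def bwP (p : (Xn n → Xn n) × Finset (Xn n)) : Equiv.Perm (Om n) :=
  if h : Function.Involutive (bw p) then h.toPerm else 1

open Classical in
/-- from a signed permutation to a pair -/
noncomputable def fw (w : Equiv.Perm (Om n)) : (Xn n → Xn n) × Finset (Xn n) :=
  (fun x => mag (w (sg false x)), univ.filter fun x => ((w (sg false x) : Om n) : ℤ) < 0)

lemma sg_true_false (x : Xn n) : ((sg true x : Om n) : ℤ) = -((sg false x : Om n) : ℤ) := by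
  unfold sg; simp

lemma fw_mem (w : Equiv.Perm (Om n)) (hw : w ∈ IB n) : fw w ∈ J n := by
  unfold IB at hw
  rw [mem_filter] at hw
  obtain ⟨-, hodd, hinv⟩ := hw
  unfold J
  rw [mem_filter]
  have key : ∀ x : Xn n, w (sg false (mag (w (sg false x)))) =
      sg (decide (((w (sg false x) : Om n) : ℤ) < 0)) x := by
    intro x
    have h1 := sg_mag (w (sg false x))
    by_cases h0 : ((w (sg false x) : Om n) : ℤ) < 0
    · rw [decide_eq_true h0] at h1 ⊢
      have h2 := hodd _ _ (sg_true_false (mag (w (sg false x))))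
      rw [h1, hinv] at h2
      apply Subtype.ext
      rw [sg_true_false]
      omega
    · rw [decide_eq_false h0] at h1 ⊢
      rw [h1, hinv]
  refine ⟨mem_univ _, ?_, ?_⟩
  · intro x
    show mag (w (sg false (mag (w (sg false x))))) = x
    rw [key, mag_sg]
  · intro x hx
    unfold fw at hx ⊢
    simp only [mem_filter, mem_univ, true_and] at hx ⊢
    rw [key, decide_eq_true hx, sg_neg]

lemma bwP_apply (p : (Xn n → Xn n) × Finset (Xn n)) (hp : p ∈ J n) (a : Om n) :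
    bwP p a = bw p a := by
  unfold J at hp
  rw [mem_filter] at hp
  have h : Function.Involutive (bw p) := bw_bw p hp.2.1 hp.2.2
  unfold bwP
  rw [dif_pos h]
  rfl

lemma bwP_mem (p : (Xn n → Xn n) × Finset (Xn n)) (hp : p ∈ J n) : bwP p ∈ IB n := by
  have hp' := hp
  unfold J at hp
  rw [mem_filter] at hp
  unfold IB
  rw [mem_filter]
  refine ⟨mem_univ _, ?_, ?_⟩
  · intro a b h
    rw [bwP_apply p hp', bwP_apply p hp']
    exact bw_neg p a b h
  · intro a
    rw [bwP_apply p hp', bwP_apply p hp']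
    exact bw_bw p hp.2.1 hp.2.2 a

lemma bwP_fw (w : Equiv.Perm (Om n)) (hw : w ∈ IB n) : bwP (fw w) = w := by
  apply Equiv.ext
  intro a
  rw [bwP_apply _ (fw_mem w hw)]
  unfold IB at hw
  rw [mem_filter] at hw
  obtain ⟨-, hodd, hinv⟩ := hw
  have h0 : decide (mag a ∈ (fw w).2) =
      decide (((w (sg false (mag a)) : Om n) : ℤ) < 0) := by
    unfold fw
    simp only [mem_filter, mem_univ, true_and]
  unfold bw
  rw [h0]
  show sg _ (mag (w (sg false (mag a)))) = w a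
  have h1 := sg_mag a
  by_cases ha : (a : ℤ) < 0
  · rw [decide_eq_true ha] at h1 ⊢
    have h2 := hodd _ _ (sg_true_false (mag a))
    rw [h1] at h2
    apply Subtype.ext
    rw [h2]
    have h3 := sg_mag (w (sg false (mag a)))
    conv_rhs => rw [← h3]
    by_cases h4 : ((w (sg false (mag a)) : Om n) : ℤ) < 0
    · rw [decide_eq_true h4]
      rw [sg_true_false]
      simp
    · rw [decide_eq_false h4]
      exact sg_true_false _
  · rw [decide_eq_false ha] at h1 ⊢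
    rw [h1, Bool.false_xor]
    exact sg_mag (w a)

lemma fw_bwP (p : (Xn n → Xn n) × Finset (Xn n)) (hp : p ∈ J n) : fw (bwP p) = p := by
  have h1 : ∀ x : Xn n, bwP p (sg false x) = sg (decide (x ∈ p.2)) (p.1 x) := by
    intro x
    rw [bwP_apply p hp]
    unfold bw
    rw [mag_sg]
    have : decide (((sg false x : Om n) : ℤ) < 0) = false := by
      rw [decide_eq_false_iff_not, sg_neg]; simp
    rw [this, Bool.false_xor]
  unfold fw
  apply Prod.ext
  · funext x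
    simp only [h1, mag_sg]
  · ext x
    simp only [mem_filter, mem_univ, true_and, h1, sg_neg, decide_eq_true_eq]

lemma ev_eq_vl (w : Equiv.Perm (Om n)) (i : ℕ) : ev w (i : ℤ) = vl (fw w) i := by
  by_cases hi : i ∈ Finset.Icc 1 n
  · have h1 := Finset.mem_Icc.mp hi
    have h2 : (i : ℤ) ∈ (Finset.Icc (-(n : ℤ)) n).erase 0 := by
      rw [Om_iff]; omega
    unfold ev
    rw [dif_pos h2]
    have h3 := vl_eq (fw w) ⟨i, hi⟩
    simp only at h3
    rw [h3]
    have h4 : sg false (⟨i, hi⟩ : Xn n) = ⟨(i : ℤ), h2⟩ := by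
      apply Subtype.ext
      unfold sg; simp
    have h5 := (Om_iff (n := n) _).mp (w ⟨(i : ℤ), h2⟩).2
    unfold fw
    simp only [mem_filter, mem_univ, true_and, h4]
    unfold mag
    simp only
    split_ifs with h6
    · omega
    · omega
  · rw [vl_out _ _ hi]
    unfold ev
    rw [dif_neg]
    rw [Om_iff]
    rw [Finset.mem_Icc] at hi
    omega

lemma card_upper (w : Equiv.Perm (Om n)) :
    desUpper w = (EE n (vl (fw w))).card + (UA n (vl (fw w))).card := by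
  unfold desUpper
  have h1 : ∀ i : ℕ, ev w ((i : ℤ) + 1) = vl (fw w) (i + 1) := by
    intro i
    have := ev_eq_vl w (i + 1)
    push_cast at this
    exact this
  have h2 : ((range n).filter fun i : ℕ => ev w ((i : ℤ) + 1) < ev w (i : ℤ)) =
      (range n).filter fun i : ℕ => vl (fw w) (i + 1) < vl (fw w) i := by
    apply filter_congr
    intro i _
    rw [h1, ev_eq_vl]
  rw [h2]
  unfold EE UA
  rw [← Finset.card_union_of_disjoint]
  · congr 1
    ext i
    simp only [mem_union, mem_filter, mem_range]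
    constructor
    · rintro ⟨a, b⟩
      by_cases h : vl (fw w) i < 0 ∧ vl (fw w) (i + 1) < 0
      · right; exact ⟨a, h.1, h.2, b⟩
      · left; exact ⟨a, h, b⟩
    · rintro (⟨a, b, c⟩ | ⟨a, b, c, d⟩)
      · exact ⟨a, c⟩
      · exact ⟨a, d⟩
  · rw [Finset.disjoint_left]
    intro i h3 h4
    rw [mem_filter] at h3 h4
    exact h3.2.1 ⟨h4.2.1, h4.2.2.1⟩

lemma card_lower (w : Equiv.Perm (Om n)) :
    desLower w = (EE n (vl (fw w))).card + (UD n (vl (fw w))).card := by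
  unfold desLower
  have h1 : ∀ i : ℕ, ev w ((i : ℤ) + 1) = vl (fw w) (i + 1) := by
    intro i
    have := ev_eq_vl w (i + 1)
    push_cast at this
    exact this
  have h2 : ((range n).filter fun i : ℕ => rlt (ev w ((i : ℤ) + 1)) (ev w (i : ℤ))) =
      (range n).filter fun i : ℕ => rlt (vl (fw w) (i + 1)) (vl (fw w) i) := by
    apply filter_congr
    intro i _
    rw [h1, ev_eq_vl]
  have h5 : ((range n).filter fun i : ℕ => rlt (vl (fw w) (i + 1)) (vl (fw w) i)) =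
      EE n (vl (fw w)) ∪ UD n (vl (fw w)) := by
    unfold EE UD
    ext i
    simp only [mem_union, mem_filter, mem_range]
    generalize vl (fw w) i = a
    generalize vl (fw w) (i + 1) = b
    have h7 : rlt b a ↔ (¬ (a < 0 ∧ b < 0) ∧ b < a) ∨ (a < 0 ∧ b < 0 ∧ a < b) := by
      unfold rlt
      constructor
      · rintro (h | h | h) <;> omega
      · rintro (h | h) <;> omega
    rw [h7]
    tauto
  rw [h2, h5, Finset.card_union_of_disjoint]
  unfold EE UD
  rw [Finset.disjoint_left]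
  intro i h3 h4
  rw [mem_filter] at h3 h4
  exact h3.2.1 ⟨h4.2.1, h4.2.2.1⟩

lemma sum_transfer (F : (ℕ → ℤ) → ℤ[X]) :
    ∑ w ∈ IB n, F (vl (fw w)) = ∑ p ∈ J n, F (vl p) := by
  refine Finset.sum_bij' (fun w _ => fw w) (fun p _ => bwP p) ?_ ?_ ?_ ?_ ?_
  · intro w hw; exact fw_mem w hw
  · intro p hp; exact bwP_mem p hp
  · intro w hw; exact bwP_fw w hw
  · intro p hp; exact fw_bwP p hp
  · intro w _; rfl

end bridge

/-- For every `n ≥ 1` the two descent numbers `des_B` and `des^B` are equidistributed on the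
involutions of `B_n`. -/
theorem result : ∀ n : ℕ, 1 ≤ n →
    ∑ w ∈ IB n, (X : ℤ[X]) ^ desLower w = ∑ w ∈ IB n, (X : ℤ[X]) ^ desUpper w := by
  intro n _
  simp only [card_lower, card_upper]
  rw [sum_transfer (fun v => (X : ℤ[X]) ^ ((EE n v).card + (UD n v).card)),
    sum_transfer (fun v => (X : ℤ[X]) ^ ((EE n v).card + (UA n v).card))]
  exact (sum_J n).symm

end Pool.Agent.Results.MP_eb5881_co.InvolutionDescents
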